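import Pool.Agent.Results.MP_d1780f_co.Reconstruction

/-! Record of a slip in the wording of the problem file; this is not a hand-in.

If only squarefree monomials are allowed in an affine stress, then the space of `2`-stresses is
zero for the `6`-polytopes below, whose boundary is the join of two tetrahedron boundaries.
Their missing faces have dimension `3 < d - 2`, so the literal wording contradicts the case
`i = 2` that the file lists as known. -/

namespace Pool.Agent.MP_d1780f_co.H98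

open MvPolynomial Finset Pool.Agent.Results.MP_d1780f_co.Reconstruction

/-- The literal wording: stresses all of whose monomials are squarefree. -/
def SqStress {V : Type} [Fintype V] [DecidableEq V] {d : ℕ} (p : V → Fin d → ℝ) (i : ℕ) :
    Set (MvPolynomial V ℝ) :=
  {u | u ∈ Stress p i ∧ ∀ m ∈ u.support, ∀ v, m v ≤ 1}

/-- Two tetrahedra in complementary spaces, both around the origin. -/
def pt (s : ℝ) : Fin 8 → Fin 6 → ℝ :=
  ![![1, 0, 0, 0, 0, 0], ![0, 1, 0, 0, 0, 0], ![0, 0, 1, 0, 0, 0], ![-s, -1, -1, 0, 0, 0],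
    ![0, 0, 0, 1, 0, 0], ![0, 0, 0, 0, 1, 0], ![0, 0, 0, 0, 0, 1], ![0, 0, 0, -1, -1, -1]]

variable {s : ℝ}

theorem dep_zero (hs : 0 < s) (w : Fin 8 → ℝ) (h1 : ∑ v, w v = 0)
    (h2 : ∀ k, ∑ v, pt s v k * w v = 0) {v : Fin 8} (hv : w v = 0) : w = 0 := by
  have a0 := h2 0
  have a1 := h2 1
  have a2 := h2 2
  have a3 := h2 3
  have a4 := h2 4
  have a5 := h2 5
  simp [Fin.sum_univ_succ, pt] at h1 a0 a1 a2 a3 a4 a5
  have b : w 3 = 0 ∧ w 7 = 0 := by
    have c : (s + 3) * w 3 + 4 * w 7 = 0 := by linarith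
    have c1 : w 3 = 0 → w 3 = 0 ∧ w 7 = 0 := fun h => ⟨h, by rw [h] at c; linarith⟩
    have c2 : w 7 = 0 → w 3 = 0 ∧ w 7 = 0 := fun h => ⟨by
      rw [h] at c
      have : (s + 3) * w 3 = 0 := by linarith
      exact (mul_eq_zero.1 this).resolve_left (by positivity), h⟩
    fin_cases v <;> simp at hv
    · refine c1 ?_
      have : s * w 3 = 0 := by linarith
      exact (mul_eq_zero.1 this).resolve_left hs.ne'
    · exact c1 (by linarith)
    · exact c1 (by linarith)
    · exact c1 hv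
    · exact c2 (by linarith)
    · exact c2 (by linarith)
    · exact c2 (by linarith)
    · exact c2 hv
  obtain ⟨b3, b7⟩ := b
  rw [b3] at a0
  funext x
  fin_cases x <;> simp <;> linarith

theorem indep (hs : 0 < s) {σ : Finset (Fin 8)} (hσ : σ ≠ univ) :
    AffineIndependent ℝ fun v : σ => pt s v := by
  obtain ⟨v, hv⟩ : ∃ v, v ∉ σ := by
    by_contra h
    push Not at h
    exact hσ (eq_univ_of_forall h)
  rw [affineIndependent_iff]
  intro t w h1 h2 e he
  let w' : Fin 8 → ℝ := fun x => if h : x ∈ σ then if ⟨x, h⟩ ∈ t then w ⟨x, h⟩ else 0 else 0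
  have key : ∀ f : Fin 8 → ℝ, ∑ x, f x * w' x = ∑ x ∈ t, f x * w x := fun f => by
    rw [← sum_subset (subset_univ σ) (fun x _ hx => by simp [w', hx]), ← sum_coe_sort σ,
      ← sum_subset (subset_univ t) (fun x _ hx => by simp [w', hx])]
    exact sum_congr rfl fun x hx => by simp [w', hx]
  have := dep_zero hs w' (by simpa [h1] using key 1)
    (fun k => by
      rw [key]
      simpa [Finset.sum_apply, mul_comm] using congrFun h2 k) (v := v) (by simp [w', hv])
  simpa [w', he] using congrFun this e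

theorem exists_fun (z : Fin 8 → ℝ) (c : ℝ) (h1 : s * z 0 + z 1 + z 2 + z 3 = (s + 3) * c)
    (h2 : z 4 + z 5 + z 6 + z 7 = 4 * c) :
    ∃ l : (Fin 6 → ℝ) →ₗ[ℝ] ℝ, ∀ v, l (pt s v) = c - z v := by
  refine ⟨∑ k, (c - z (![0, 1, 2, 4, 5, 6] k)) • LinearMap.proj k, fun v => ?_⟩
  fin_cases v <;> simp [Fin.sum_univ_succ, pt] <;> linarith

theorem face_iff (hs : 0 < s) (σ : Finset (Fin 8)) :
    IsFace (pt s) σ ↔ (∃ a : Fin 8, a < 4 ∧ a ∉ σ) ∧ ∃ b : Fin 8, 4 ≤ b ∧ b ∉ σ := by
  constructor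
  · rintro ⟨hne, l, c, h1, h2⟩
    have e1 : s * l (pt s 0) + l (pt s 1) + l (pt s 2) + l (pt s 3) = 0 := by
      rw [← smul_eq_mul, ← map_smul, ← map_add, ← map_add, ← map_add, ← map_zero l]
      congr 1
      funext k
      fin_cases k <;> simp [pt]
    have e2 : l (pt s 4) + l (pt s 5) + l (pt s 6) + l (pt s 7) = 0 := by
      rw [← map_add, ← map_add, ← map_add, ← map_zero l]
      congr 1
      funext k
      fin_cases k <;> simp [pt]
    have hc : c ≠ 0 := by
      rintro rfl
      have b0 := mul_nonpos_of_nonneg_of_nonpos hs.le (h1 0)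
      have b1 : s * l (pt s 0) = 0 := by linarith [h1 1, h1 2, h1 3]
      refine hne (eq_univ_of_forall fun v => (h2 v).1 ?_)
      fin_cases v
      · exact (mul_eq_zero.1 b1).resolve_left hs.ne'
      all_goals
        simp only [Fin.reduceFinMk]
        linarith [h1 1, h1 2, h1 3, h1 4, h1 5, h1 6, h1 7]
    constructor
    · by_contra h
      push Not at h
      rw [(h2 0).2 (h 0 (by decide)), (h2 1).2 (h 1 (by decide)), (h2 2).2 (h 2 (by decide)),
        (h2 3).2 (h 3 (by decide))] at e1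
      have : (s + 3) * c = 0 := by linarith
      exact hc ((mul_eq_zero.1 this).resolve_left (by positivity))
    · by_contra h
      push Not at h
      rw [(h2 4).2 (h 4 (by decide)), (h2 5).2 (h 5 (by decide)), (h2 6).2 (h 6 (by decide)),
        (h2 7).2 (h 7 (by decide))] at e2
      exact hc (by linarith)
  · rintro ⟨⟨a, ha, ha'⟩, b, hb, hb'⟩
    obtain ⟨i, hi⟩ : ∃ i : Fin 8 → ℝ, ∀ v, i v = if v ∈ σ then 0 else 1 := ⟨_, fun _ => rfl⟩
    have i0 : ∀ v, 0 ≤ i v := fun v => by rw [hi]; positivity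
    have ia : i a = 1 := by simp [hi, ha']
    have ib : i b = 1 := by simp [hi, hb']
    have hA : 0 < s * i 0 + i 1 + i 2 + i 3 := by
      have := mul_nonneg hs.le (i0 0)
      fin_cases a <;> simp only [Fin.reduceFinMk] at ia ha <;> first
        | exact absurd ha (by decide)
        | (rw [ia]; linarith [i0 1, i0 2, i0 3])
    have hB : 0 < i 4 + i 5 + i 6 + i 7 := by
      fin_cases b <;> simp only [Fin.reduceFinMk] at ib hb <;> first
        | exact absurd hb (by decide)
        | linarith [i0 4, i0 5, i0 6, i0 7]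
    obtain ⟨κ, hκ⟩ : ∃ κ : Fin 8 → ℝ, ∀ v, κ v = if v < 4 then (s + 3) * (i 4 + i 5 + i 6 + i 7)
      else 4 * (s * i 0 + i 1 + i 2 + i 3) := ⟨_, fun _ => rfl⟩
    have κ0 : ∀ v, 0 < κ v := fun v => by rw [hκ]; positivity
    obtain ⟨l, hl⟩ := exists_fun (s := s) (fun v => i v * κ v)
      ((s * i 0 + i 1 + i 2 + i 3) * (i 4 + i 5 + i 6 + i 7)) (by simp [hκ]; ring)
      (by simp [hκ]; ring)
    refine ⟨fun e => ha' (e ▸ mem_univ a), l,
      (s * i 0 + i 1 + i 2 + i 3) * (i 4 + i 5 + i 6 + i 7), fun v => ?_, fun v => ?_⟩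
    · rw [hl]
      exact sub_le_self _ (mul_nonneg (i0 v) (κ0 v).le)
    · rw [hl, sub_eq_self, mul_eq_zero, or_iff_left (κ0 v).ne', hi]
      simp

theorem poly (hs : 0 < s) : IsSimplicialPolytope (pt s) where
  span := by
    have h := (indep hs (σ := {0}ᶜ) (by decide)).affineSpan_eq_top_iff_card_eq_finrank_add_one.2
      (by simp [card_compl])
    refine top_le_iff.1 (h ▸ affineSpan_mono ℝ ?_)
    rintro _ ⟨v, rfl⟩
    exact ⟨v, rfl⟩
  vertex v := by
    rw [face_iff hs]
    revert v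
    decide
  simplex σ h := indep hs h.1

theorem missing (hs : 0 < s) (μ : Finset (Fin 8)) (h : IsMissingFace (pt s) μ) : μ.card = 4 := by
  simp only [IsMissingFace, face_iff hs] at h
  revert μ
  decide +kernel

theorem sq_zero (hs : 0 < s) : SqStress (pt s) 2 = {0} := by
  refine Set.eq_singleton_iff_unique_mem.2 ⟨⟨⟨isHomogeneous_zero _ _ _, by simp, by simp, by simp⟩,
    by simp⟩, ?_⟩
  rintro u ⟨⟨h0, -, h1, h2⟩, h3⟩
  ext m
  by_contra hm
  rw [coeff_zero] at hm
  obtain ⟨v, x, rfl⟩ : ∃ v x, m = Finsupp.single v 1 + Finsupp.single x 1 := by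
    have : (Finsupp.toMultiset m).card = 2 := by
      rw [Finsupp.card_toMultiset, ← h0 hm]
      simp [Finsupp.weight_apply]
      rfl
    obtain ⟨v, x, h⟩ := Multiset.card_eq_two.1 this
    exact ⟨v, x, by
      rw [← Finsupp.toMultiset_toFinsupp m, h]
      ext y
      simp [Finsupp.single_apply, Multiset.count_cons, Multiset.count_singleton, eq_comm, add_comm]⟩
  have := dep_zero hs (fun y => coeff (Finsupp.single v 1) (pderiv y u))
    (by rw [← coeff_sum, h1, coeff_zero])
    (fun k => by simpa [coeff_sum] using congrArg (coeff (Finsupp.single v 1)) (h2 k)) (v := v) (by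
      rw [coeff_pderiv, mul_eq_zero]
      left
      by_contra h
      simpa using h3 _ (mem_support_iff.2 h) v)
  have := congrFun this x
  simp only [coeff_pderiv, Pi.zero_apply, mul_eq_zero] at this
  exact hm (this.resolve_right (by positivity))

theorem slip : ∃ p q : Fin 8 → Fin 6 → ℝ, IsSimplicialPolytope p ∧ IsSimplicialPolytope q ∧
    (∀ μ, IsMissingFace p μ → μ.card = 4) ∧ (∀ μ, IsMissingFace q μ → μ.card = 4) ∧
    (∀ σ, IsFace p σ ↔ IsFace q σ) ∧ SqStress p 2 = {0} ∧ SqStress q 2 = {0} ∧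
    ¬ ∃ A : (Fin 6 → ℝ) ≃ᵃ[ℝ] (Fin 6 → ℝ), ∀ v, A (p v) = q v := by
  refine ⟨pt 1, pt 2, poly one_pos, poly two_pos, missing one_pos, missing two_pos,
    fun σ => by rw [face_iff one_pos, face_iff two_pos], sq_zero one_pos, sq_zero two_pos, ?_⟩
  rintro ⟨A, hA⟩
  have e : ∀ v, pt 2 v = A.linear (pt 1 v) + A 0 := fun v => by
    simpa [hA] using A.map_vadd 0 (pt 1 v)
  have e1 : pt 1 0 + pt 1 1 + pt 1 2 + pt 1 3 = pt 1 4 + pt 1 5 + pt 1 6 + pt 1 7 := by
    funext k
    fin_cases k <;> simp [pt]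
  have e2 := congrArg A.linear e1
  simp only [map_add] at e2
  have e3 : pt 2 0 + pt 2 1 + pt 2 2 + pt 2 3 = pt 2 4 + pt 2 5 + pt 2 6 + pt 2 7 := by
    simp only [e]
    linear_combination e2
  have := congrFun e3 0
  simp [pt] at this
  norm_num at this

end Pool.Agent.MP_d1780f_co.H98
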